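import Mathlib
import Pool.Agent.Y228.HX.D3

/-!
# The motivic monodromy conjecture for the `χ_y`-genus: all nondegenerate ideals

Let `I = (f_1, ..., f_r)`, `f_i = ∑_{π j = i} c_j x ^ (m_j)`, be generated by polynomials over a field
`k ⊂ ℂ` which are nondegenerate with respect to the COMPACT faces of their Newton polyhedra at the
origin (the usual local nondegeneracy of a system): for every `w` with positive coordinates the
initial forms of some of the `f_i` have no common zero in the torus at which their differentials
are dependent. There is no other condition: the numbers of variables and of generators and the Newton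
polyhedra are arbitrary.

The local motivic zeta function `Z_I(T) ∈ 𝓜_K[[T]]` of the ideal at the origin (`zetaI`) is specialised
by a ring homomorphism `φ : 𝓜_K → ℚ(u)` which is the `χ_y`-genus on the nondegenerate hypersurfaces in
tori (`ChiY φ`), that is `φ(𝕃) = u` and `φ` satisfies the formula of Danilov and Khovanskii. The
homomorphism given by the Hodge-Deligne polynomial, `[X] ↦ E(X; u, 1)`, which is
`∑_{p,q} (-1) ^ (p + q) h^{p,q}(X) u ^ p` for smooth projective `X`, has this property, by theorems of
Deligne and of Danilov and Khovanskii (1986). These theorems are not formalised here; the result is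
for all `φ` with this property.

The power series `φ(Z_I(T))` lies in the subring of `ℚ(u)[[T]]` generated over the field `ℚ(u)` by `T`
and finitely many `1 / (1 - u ^ a T ^ b)`, `a < 0 < b`, such that `a / b` is an integer or the local
Bernstein-Sato polynomial of the ideal at the origin (Budur, Mustata and Saito) has a root in
`a / b + ℤ`; so all the poles of `φ(Z_I)`, except perhaps the integers, give eigenvalues of the
monodromy of Verdier's specialisation. The hand-in `CompactFacesIdeals` has this for the motivic zeta
function itself, but only for Newton polyhedra all of whose facets with the candidate pole are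
simplices or B1 at the vertices; no condition of this kind is needed here.

Method: `Z_I` is computed from the zeta function of `g = ∑ y_i f_i` at the origin of the space of the
`(x, y)`: the arcs `(x, t y)` of `g` give `Z_I(T) T / (𝕃 - T)` up to a factor. Then the theorem for
hypersurfaces (class functions of the Ehrhart series of the faces, generic regular triangulations)
is applied to `g`, which is nondegenerate for the compact faces of its Newton polyhedron.
-/

set_option autoImplicit false

namespace Pool.Agent.Results.MP_4e5fcd_ag.ChiYGenusIdeals

open MvPolynomial Pool.Agent.W428.MOT Pool.Agent.W749.JI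
open Pool.Agent.TH216.MF (ratR)
open Pool.Agent.Y229.CF (NondegIC)
open Pool.Agent.Y228.HX (ChiY uX)

/-- **The motivic monodromy conjecture at the origin (Bernstein-Sato form modulo integers),
specialised to the `χ_y`-genus, for all ideals which are nondegenerate for the compact faces.**

Let `k ⊂ ℂ` be a field, let `f_i = ∑_{π j = i} c_j x ^ (m_j)`, `c_j ∈ k \ 0`, the exponents of each `f_i`
distinct, be nondegenerate for the compact faces (`NondegIC`: for every linear form `w` with positive
coordinates and every nonempty `Q`, the parts of the `f_i`, `i ∈ Q`, on which `w` is minimal have no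
common zero in the torus at which their differentials are dependent).

`IsLocalBIdeal f b` is the functional equation of Budur, Mustata and Saito for the ideal `(f_i)` with
operators with formal power series coefficients at the origin. `zetaI f` is the local motivic zeta
function of the ideal over the field `K`, `MK K = K_0(Var_K)[𝕃⁻¹]`, `PowerSeries.map φ` applies `φ` to
the coefficients, and `ratR uX S` is the subring of `ℚ(u)[[T]]` generated over `ℚ(u)` by `T` and the
series `1 / (1 - u ^ a T ^ b)`, `(a, b) ∈ S`. The finite set `S` does not depend on `K` and `φ`.

`ChiY φ` says that `φ(𝕃) = u` and that for all `n`, all families of distinct exponents `v j ∈ ℕ ^ n`,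
`j ∈ κ`, and all coefficients `c_j ∈ K \ 0` such that `g = ∑_{j ∈ κ} c_j x ^ (v j)` is nondegenerate for all
the faces of its Newton polytope `P` (`NonL v κ c`: for every `w ∈ ℤ ^ n` the sum of the terms on which
`w` is minimal and its `x_i ∂_i` have no common zero in the torus over the algebraic closure of `K`)
the class of the hypersurface `g = 0` in the torus of dimension `n` (`ZT v κ c`) has the value
`((u - 1) ^ n + (u - 1) ^ (n + 1) E(u)) / u`, where `E ∈ ℚ(u)` is the rational function with the power
series expansion `∑_k #(k P ∩ ℤ ^ n) u ^ k` at `0` (`Expd E`; `Dil v κ k` is `k P ∩ ℤ ^ n`). -/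
theorem result {k : Type} [Field k] [Algebra k ℂ] {ℓ r n : ℕ} (hℓ : 0 < ℓ) (π : Fin ℓ → Fin r)
    (m : Fin ℓ → Fin n → ℕ) (hinj : ∀ j j', π j = π j' → m j = m j' → j = j')
    (c : Fin ℓ → k) (hc : ∀ j, c j ≠ 0) (hnd : NondegIC π m (fun j => algebraMap k ℂ (c j))) :
    ∃ S : Finset (ℤ × ℤ),
      (∀ p ∈ S, p.1 < 0 ∧ 0 < p.2 ∧ (p.2 ∣ p.1 ∨ ∀ b : Polynomial ℂ,
        IsLocalBIdeal (fun i => ∑ j ∈ Finset.univ.filter (fun j => π j = i),
          C (algebraMap k ℂ (c j)) * ∏ v, X v ^ m j v) b →
            ∃ i : ℤ, b.eval ((p.1 : ℂ) / p.2 - i) = 0)) ∧
      ∀ (K : Type) [Field K] [Algebra k K] (φ : MK K →+* RatFunc ℚ), ChiY φ →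
        PowerSeries.map φ (zetaI (fun i => ∑ j ∈ Finset.univ.filter (fun j => π j = i),
          C (algebraMap k K (c j)) * ∏ v, X v ^ m j v)) ∈ ratR uX S :=
  Pool.Agent.Y228.HX.hodgeI hℓ π m hinj c hc hnd

end Pool.Agent.Results.MP_4e5fcd_ag.ChiYGenusIdeals
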