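import Pool.Agent.Y229.CF.IdX

/-!
# The motivic monodromy conjecture at the origin for ideals nondegenerate for the compact faces

Let `I = (f_1, ..., f_r)`, `f_i = ∑_{π j = i} c_j x ^ (m_j)`, be generated by polynomials over a field
`k ⊂ ℂ` which are nondegenerate with respect to the COMPACT faces of their Newton polyhedra at the
origin (the usual local nondegeneracy of a system): for every `w` with positive coordinates the
initial forms of some of the `f_i` have no common zero in the torus at which their differentials
are dependent. There is no condition on the terms of the `f_i` above the compact faces. The earlier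
theorem `NondegenerateIdeals` asks this for all the faces of the Newton polytopes and that no facet
of the Newton polyhedron of `∑ y_i f_i` is B1, in terms of all the exponents of the `f_i`. Here

* only the exponents `m j`, `j ∈ V`, count, where the Newton polyhedron of each `f_i` is spanned by its
  exponents in `V` (the vertices);
* the candidate poles may also be treated vertex by vertex: at each vertex of the Newton polyhedron of
  `∑ y_i f_i`, the facets with this candidate pole which contain the vertex are simplices or B1 in a
  common variable (`x_i` or `y_i`, it may depend on the vertex), or simplices or B1 in variables `y_i`.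

Method: a functional equation of the ideal gives one of `g = ∑ y_i f_i` (one half of a theorem of
Mustata), and `g` is nondegenerate for the compact faces of its Newton polyhedron. The functional
equation of `g` is deformed to very general coefficients (for compact faces the modules which occur
are only finitely generated modulo terms divisible by monomials of high degree, which do not
contribute, `Y229.CF`) and restricted to the exponents in `V`; it gives recurrences for the
generating functions of the jets; the pole of a candidate is removed cone by cone of the normal fan.
The jets on which one of the initial forms of the `f_i` is a monomial do not contribute.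
-/

set_option autoImplicit false

namespace Pool.Agent.Results.MP_4e5fcd_ag.CompactFacesIdeals

open MvPolynomial Pool.Agent.W428.MOT Pool.Agent.W749.JI Pool.Agent.TH216.HDNL
open Pool.Agent.Y229.CF (NondegIC)

/-- **The motivic monodromy conjecture at the origin (Bernstein-Sato form modulo integers) for ideals
which are nondegenerate for the compact faces, with conditions on the vertices of the Newton
polyhedra only.**

Let `k ⊂ ℂ` be a field, let `f_i = ∑_{π j = i} c_j x ^ (m_j)`, `c_j ∈ k \ 0`, be nondegenerate for the
compact faces (`NondegIC`: for every linear form `w` with positive coordinates and every nonempty `Q`,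
the parts of the `f_i`, `i ∈ Q`, on which `w` is minimal have no common zero in the torus at which
their differentials are dependent), let the Newton polyhedra of the `f_i` be spanned by their
exponents `m j` with `j ∈ V` (`SpansI`), and let `HypVIL (cay π m) V` hold: for every ray
`a ∈ ℕ ^ (n + r)` of the normal fan of the Newton polyhedron of `∑ y_i f_i` with `N_a > 0`, the facet
of `a` is a pyramid with an apex of height `1` in a direction `y_i`, or `N_a` divides `|a|`, or
`|a| / N_a - |a'| / N_(a')` is an integer for some `a'` whose facet contains a simplex which is not
B1, or, at every vertex, the facets with the candidate pole `-|a| / N_a` are simplices or B1 in a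
common direction, or simplices or B1 in directions `y_i`.

Then the local motivic zeta function of the ideal at the origin (`zetaI`, over any field `K ⊃ k`) lies
in the ring generated by `T` and finitely many `1 / (1 - 𝕃 ^ a T ^ b)`, `a < 0 < b`, such that `a / b`
is an integer or the local Bernstein-Sato polynomial of the ideal at the origin (Budur, Mustata and
Saito) has a root in `a / b + ℤ`. -/
theorem result {k : Type} [Field k] [Algebra k ℂ] {ℓ r n : ℕ} (hℓ : 0 < ℓ) (π : Fin ℓ → Fin r)
    (m : Fin ℓ → Fin n → ℕ) (hinj : ∀ j j', π j = π j' → m j = m j' → j = j')
    (c : Fin ℓ → k) (hc : ∀ j, c j ≠ 0) (hnd : NondegIC π m (fun j => algebraMap k ℂ (c j)))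
    (V : Finset (Fin ℓ)) (hV : Pool.Agent.Y229.SpansI π m V) (hL : HypVIL (cay π m) V) :
    ∃ S : Finset (ℤ × ℤ),
      (∀ p ∈ S, p.1 < 0 ∧ 0 < p.2 ∧ (p.2 ∣ p.1 ∨ ∀ b : Polynomial ℂ,
        IsLocalBIdeal (fun i => ∑ j ∈ Finset.univ.filter (fun j => π j = i),
          C (algebraMap k ℂ (c j)) * ∏ v, X v ^ m j v) b →
            ∃ i : ℤ, b.eval ((p.1 : ℂ) / p.2 - i) = 0)) ∧
      ∀ (K : Type) [Field K] [Algebra k K],
        zetaI (fun i => ∑ j ∈ Finset.univ.filter (fun j => π j = i),
          C (algebraMap k K (c j)) * ∏ v, X v ^ m j v) ∈ ratRing K S :=
  Pool.Agent.Y229.CF.nd_idealX' hℓ π m hinj c hc hnd V hV hL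

end Pool.Agent.Results.MP_4e5fcd_ag.CompactFacesIdeals
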