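import Pool.Agent.Y228.RR.Mot
import Pool.Agent.TH187.SA.Classes
import Pool.Agent.TH187.SA.Mult

set_option autoImplicit false

/-! # The motivic monodromy conjecture for products of ideals of linear subspaces

Let `L s = zeros (c s)`, `s ∈ S`, be proper linear subspaces of the affine space `ℂ ^ σ`, given as the
zeros of linear forms with the coefficients `c s j`, and let `I = ∏ s, I(L s) ^ e s`, which is
generated by the products of these linear forms, `e s` of them from the family of index `s`
(`arrGen c e`).

Let `𝒢` be a building set of linear subspaces (De Concini and Procesi) which contains the `L s` with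
`e s > 0`, for example the set of these `L s`, if it is closed under intersections. Let `Y` be the
wonderful model, which is obtained from the affine space by blowing up the strict transforms of the
members of `𝒢`, in the order of the dimension. It is smooth, the components `E_G`, `G ∈ 𝒢`, cross
normally, the multiplicity of the Jacobian determinant along `E_G` is `ν_G - 1` with
`ν_G = codim G`, and the ideal of `L s` becomes the ideal of the divisor `∑ E_G`, over the
`G ⊆ L s`. So `Y` is a principalization of `I`, with the components `E_G`, of multiplicity
`N_G = ∑ e s`, over the `s` with `G ⊆ L s` (`mult`), and by the formula of Denef and Loeser the motivic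
zeta function of `I` (global, or local at the origin) is of the form `dlZ`.

The theorem needs that the `G` are Rees flats (`IsReesFlat`; an equivalent condition is that `E_G` is
a Rees divisor of the product of the `I(L s)`). This is so for the `L s` themselves; hence the
theorem applies to all `I` for which the `L s`, `e s > 0`, are a building set, in particular if they
are closed under intersections.

Let now `L s = H_s ⊗ ℂ ^ m`, where `H_s` is the hyperplane `α s = 0` of `ℂ ^ ι` (`copies`). Then the
`X ⊗ ℂ ^ m` (`power`), `X` an irreducible flat of the `H_s`, `e s > 0`, are a building set. They are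
Rees flats if `codim X ≤ m`; so the theorem applies to all arrangements of hyperplanes of rank at
most `m`. They are also Rees flats if `X` is constructible (`IsConstructible`) and `m ≥ 2`. The
irreducible flats of a supersolvable arrangement are constructible, so the theorem applies if the
`H_s`, `e s > 0`, are a supersolvable arrangement and `m ≥ 2`; for example, to the diagonals
`x_i = x_j` of the configurations of `n` points in `ℂ ^ m`, if `e > 0` for all the pairs (then `Y` is
the space of Fulton and MacPherson), or if the pairs with `e > 0` are the edges of a chordal graph.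

The proof: the `E_G` are Rees divisors of `I`, at general points of the `G`, which can be chosen
outside the zeros of a given polynomial `H` with `H(0) ≠ 0` (`arr_core`). -/

namespace Pool.Agent.Results.MP_4e5fcd_ag.SubspaceIdeals

open Pool.Agent.W574.SM Pool.Agent.W574.LM Pool.Agent.W574.HS Pool.Agent.TH192.DT Pool.Agent.TH187.SA
  Pool.Agent.Y231.RF Pool.Agent.Y228.RR

/-- **The motivic monodromy conjecture for products of powers of ideals of linear subspaces.** (1) Let
the `G i` be Rees flats of the subspaces `L s`, `e s > 0`, with the codimensions `ν i` and the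
multiplicities `N i`, the sum of the `e s` with `G i ⊆ L s`. Every sum `dlZ` of the form of the formula
of Denef and Loeser, with arbitrary coefficients in a ring (the classes of the strata), lies in the
ring of the `u ^ (-ν i) T ^ (N i) / (1 - u ^ (-ν i) T ^ (N i))`, and all the numbers `-ν i / N i` are
roots of every `b` for which `H b` satisfies a functional equation of the generators of
`I = ∏ s, I(L s) ^ e s` for some polynomial `H` with `H(0) ≠ 0`, in particular of the local
Bernstein-Sato polynomial of `I` at the origin, and (`H = 1`) of the global one. (2) Proper subspaces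
are Rees flats of every finite family which contains them. (3) Let `L s = H_s ⊗ ℂ ^ m`, where `H_s` is
the hyperplane `α s = 0`. Let `X` be an irreducible flat of the `H_s`, `s ∈ A`, of codimension at most
`m`, or let `m ≥ 2` and let `X` be constructible from the `H_s`, `s ∈ A`. Then `X ⊗ ℂ ^ m` is a Rees
flat of the `L s`, `s ∈ A`, of codimension `m codim X`. -/
theorem result :
    (∀ {σ S I : Type} [Fintype σ] [DecidableEq σ] [Fintype S] [DecidableEq S] [Fintype I]
      {κ : S → Type} [∀ s, Fintype (κ s)] [∀ s, DecidableEq (κ s)]
      (c : (s : S) → κ s → σ → ℂ) (e : S → ℕ) (G : I → Submodule ℂ (σ → ℂ))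
      (_ : ∀ i, IsReesFlat (fun s => zeros (c s)) (fun s => e s ≠ 0) (G i)),
      (∀ (R : Type) [CommRing R] (u : Rˣ)
        (χ : Finset {x // 0 < mult (fun s => zeros (c s)) e (G x)} → R),
        dlZ u (fun i => Fintype.card σ - Module.finrank ℂ (G i))
            (fun i => mult (fun s => zeros (c s)) e (G i)) χ ∈
          ratU u (pairs (fun i => Fintype.card σ - Module.finrank ℂ (G i))
            (fun i => mult (fun s => zeros (c s)) e (G i)) : Set (ℤ × ℤ))) ∧
      ∀ q ∈ pairs (fun i => Fintype.card σ - Module.finrank ℂ (G i))
          (fun i => mult (fun s => zeros (c s)) e (G i)), q.1 < 0 ∧ 0 < q.2 ∧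
        ∀ (b : Polynomial ℂ) (H : MvPolynomial σ ℂ), MvPolynomial.constantCoeff H ≠ 0 →
          IsLocEq H (arrGen c e) b → b.eval ((q.1 : ℂ) / q.2) = 0) ∧
    (∀ {σ S : Type} [Fintype σ] [DecidableEq σ] [Finite S] (H : S → Submodule ℂ (σ → ℂ))
      (A : S → Prop), (∀ s, A s → H s ≠ ⊤) → ∀ s, A s → IsReesFlat H A (H s)) ∧
    ∀ {ι S : Type} [Fintype ι] [DecidableEq ι] [Finite S] (m : ℕ) (α : S → ι → ℂ) (A : S → Prop)
      (X : Submodule ℂ (ι → ℂ)), (∀ s, A s → α s ≠ 0) →
      (IsIrreducibleFlat α A X ∧ Fintype.card ι ≤ m + Module.finrank ℂ X ∨
        IsConstructible α A X ∧ 2 ≤ m) →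
      IsReesFlat (fun s => zeros (copies m (α s))) A (power m X) ∧
        Fintype.card (ι × Fin m) - Module.finrank ℂ (power m X)
          = m * (Fintype.card ι - Module.finrank ℂ X) := by
  refine ⟨?_, ?_, ?_⟩
  · intro σ S I _ _ _ _ _ κ _ _ c e G hG
    refine ⟨fun _ _ u χ => dlZ_mem u _ _ χ, fun q hq => ?_⟩
    have h0 := pairs_sign _ _ (fun i => codim_pos (hG i)) q hq
    refine ⟨h0.1, h0.2, fun b H hH hb => ?_⟩
    obtain ⟨i, hi, rfl⟩ := Finset.mem_image.1 hq
    have hi' := (Finset.mem_filter.1 hi).2
    have h := arr_roots_one c e b H hH hb (G i) (hG i) 0 hi'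
    push_cast at h ⊢
    rw [add_zero] at h
    exact h
  · intro σ S _ _ _ H A hH s hs
    exact isReesFlat_self H A hH s hs
  · intro ι S _ _ _ m α A X h0 hX
    exact ⟨isReesFlat_multiple m α A X h0 hX, codim_power m X⟩

end Pool.Agent.Results.MP_4e5fcd_ag.SubspaceIdeals
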