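import Pool.Agent.Y229.SP6

/-!
# The motivic monodromy conjecture at the origin for sums and products of ideals

The class of the germs of ideals at the origin which are obtained by sums `I + J` and products `I J`
in disjoint sets of variables from the powers `(x ^ m)`, from all non-zero ideals of `ℂ[x, y]`, from
the ideals of `ℂ[x₀, x₁, x₂]` which are generated by forms of the same degree, three of which are
algebraically independent, and from the ideals of `ℂ[x₀, ..., xₙ]` which are generated by forms of the
same degree without a common zero outside the origin (`Germ`, in `Pool.Agent.Y229.SPDefs`).

Method. A functional equation of the ideal `I = (f_j)` with a coefficient `B(x, s)` in place of `b(s)`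
is considered, where `s = ∑ s_j`; the roots `α` with `B(0, α) = 0` for all such equations are called
forced. By Bernstein's theorem for ideals, this is the case if `b(α) = 0` for all the ordinary
equations `H b(s)`, `H(0) ≠ 0`. If `α` and `β` are forced for `I` and `J`, then `α + β` is forced for
`I + J`, and `α` and `β` are forced for `I J`. For the zeta functions one considers the series of
the volumes of the sets `ord ≥ e`: the series of `I + J` is the Hadamard product of those of `I` and
`J`, so that its denominators are the sums. For the ideals of `ℂ[x, y]`, the denominators which do not
belong to forced roots are removed over the factorial ring `ℤ[L, L⁻¹]`, point by point of the sequence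
of blow-ups.
-/

set_option autoImplicit false

namespace Pool.Agent.Results.MP_4e5fcd_ag.SumsAndProductsLocal

open MvPolynomial Pool.Agent.W574.MO Pool.Agent.W574.RO Pool.Agent.Y229

/-- **The motivic monodromy conjecture at the origin, in the strong form, for sums and products of
ideals in disjoint sets of variables.** Let `I = (f_j)` be the ideal of the family `A`, in `n`
variables, obtained by sums and products in disjoint sets of variables from powers of variables,
ideals in two variables, ideals generated by forms of the same degree in three variables, three of
which are algebraically independent, and ideals generated by forms of the same degree without a common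
zero outside the origin, and let `Z` be its local motivic zeta function at the origin,
normalized such that the arcs with the origin `0` have the volume `1` (`Germ`). Then `L⁻ⁿ Z` lies in the
ring generated by `M[T]` and the series `1 / (1 - L⁻ᵐ Tᵃ)`, `a, m ≥ 1`, such that `-m/a` is a root of all
the polynomials `b` which satisfy the functional equation of Budur, Mustata and Saito for `f_1, ..., f_r`
with differential operators with formal power series coefficients at the origin, in particular of
the local Bernstein-Sato polynomial of the ideal `I` at the origin. -/
theorem result {M : Type} [CommRing M] (L : Mˣ) (A : Fam) (Z : PowerSeries M)
    (h : Germ L A Z) :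
    PowerSeries.C ((L⁻¹ ^ Nat.card A.σ : Mˣ) : M) * Z ∈
      DenRing L (fun a m => ∀ b : Polynomial ℂ, IsLocalBI A.f b →
        b.eval (-(m : ℂ) / a) = 0) :=
  germ_ideal A Z h _

end Pool.Agent.Results.MP_4e5fcd_ag.SumsAndProductsLocal
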